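import Pool.Graph.R_seed8.Helper313.CubeG

set_option autoImplicit false

namespace Pool.Agent.KS7_39.D51
open Pool.Agent.Helper313.Cube

/-- The bijection of third direct powers given by a bijection of groups. -/
def cube {P Q : Type} (Ψ : P ≃ Q) : (P × P × P) ≃ (Q × Q × Q) :=
  Equiv.prodCongr Ψ (Equiv.prodCongr Ψ Ψ)

def Pres {P Q : Type} [Group P] [Group Q] (Ψ : P ≃ Q) : Prop :=
  ∀ V : Subgroup (P × P × P), ∃ W : Subgroup (Q × Q × Q), (W : Set (Q × Q × Q)) = cube Ψ '' V

/-- Under `Ψ` the third powers have the same subgroups. -/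
def SameCubeSubgroups {P Q : Type} [Group P] [Group Q] (Ψ : P ≃ Q) : Prop :=
  ∀ U : Set (P × P × P), (∃ V : Subgroup (P × P × P), (V : Set (P × P × P)) = U) ↔
    ∃ W : Subgroup (Q × Q × Q), (W : Set (Q × Q × Q)) = cube Ψ '' U

theorem same_of_pres {P Q : Type} [Group P] [Group Q] {Ψ : P ≃ Q} (h1 : Pres Ψ)
    (h2 : Pres Ψ.symm) : SameCubeSubgroups Ψ := by
  intro U
  constructor
  · rintro ⟨V, rfl⟩
    exact h1 V
  · rintro ⟨W, hW⟩
    obtain ⟨V, hV⟩ := h2 W
    refine ⟨V, hV.trans ?_⟩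
    rw [hW]
    exact (cube Ψ).symm_image_image U

/-- The lattice isomorphism given by the bijection. -/
noncomputable def iso_of_same {P Q : Type} [Group P] [Group Q] {Ψ : P ≃ Q}
    (h : SameCubeSubgroups Ψ) : Subgroup (P × P × P) ≃o Subgroup (Q × Q × Q) where
  toFun V := ((h V).1 ⟨V, rfl⟩).choose
  invFun W := ((h ((cube Ψ).symm '' W)).2 ⟨W, ((cube Ψ).image_symm_image W).symm⟩).choose
  left_inv V := by
    apply SetLike.coe_injective
    have h1 := ((h V).1 ⟨V, rfl⟩).choose_spec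
    have h2 := ((h ((cube Ψ).symm '' (((h V).1 ⟨V, rfl⟩).choose : Subgroup (Q × Q × Q)))).2
      ⟨_, ((cube Ψ).image_symm_image _).symm⟩).choose_spec
    refine h2.trans ?_
    rw [h1]
    exact (cube Ψ).symm_image_image _
  right_inv W := by
    apply SetLike.coe_injective
    have h2 := ((h ((cube Ψ).symm '' W)).2 ⟨W, ((cube Ψ).image_symm_image W).symm⟩).choose_spec
    have h1 := ((h (((h ((cube Ψ).symm '' W)).2
      ⟨W, ((cube Ψ).image_symm_image W).symm⟩).choose : Subgroup (P × P × P))).1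
      ⟨_, rfl⟩).choose_spec
    refine h1.trans ?_
    rw [h2]
    exact (cube Ψ).image_symm_image _
  map_rel_iff' := by
    intro V V'
    have h1 := ((h V).1 ⟨V, rfl⟩).choose_spec
    have h2 := ((h V').1 ⟨V', rfl⟩).choose_spec
    show ((h V).1 ⟨V, rfl⟩).choose ≤ ((h V').1 ⟨V', rfl⟩).choose ↔ _
    rw [← SetLike.coe_subset_coe, h1, h2, Set.image_subset_image_iff (cube Ψ).injective,
      SetLike.coe_subset_coe]

section prod
variable {G H A : Type} [Group G] [Group H] [Group A] [Finite G] [Finite H] [Finite A]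

def iG : (G × G × G) →* ((G × A) × (G × A) × (G × A)) :=
  (MonoidHom.inl G A).prodMap ((MonoidHom.inl G A).prodMap (MonoidHom.inl G A))
def iA : (A × A × A) →* ((G × A) × (G × A) × (G × A)) :=
  (MonoidHom.inr G A).prodMap ((MonoidHom.inr G A).prodMap (MonoidHom.inr G A))
def pG : ((G × A) × (G × A) × (G × A)) →* (G × G × G) :=
  (MonoidHom.fst G A).prodMap ((MonoidHom.fst G A).prodMap (MonoidHom.fst G A))
def pA : ((G × A) × (G × A) × (G × A)) →* (A × A × A) :=
  (MonoidHom.snd G A).prodMap ((MonoidHom.snd G A).prodMap (MonoidHom.snd G A))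

theorem pow_one_mod {P : Type} [Group P] [Finite P] {k : ℕ} (h : k ≡ 1 [MOD Nat.card P]) (g : P) :
    g ^ k = g := by
  conv_rhs => rw [← pow_one g]
  rw [← pow_mod_natCard g k, ← pow_mod_natCard g 1]
  rw [h]

theorem pow_zero_mod {P : Type} [Group P] [Finite P] {k : ℕ} (h : k ≡ 0 [MOD Nat.card P])
    (g : P) : g ^ k = 1 := by
  rw [← pow_mod_natCard g k, h]; simp

theorem split (hc : (Nat.card G).Coprime (Nat.card A))
    (V : Subgroup ((G × A) × (G × A) × (G × A))) (x : (G × A) × (G × A) × (G × A)) :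
    x ∈ V ↔ pG x ∈ V.comap (iG (A := A)) ∧ pA x ∈ V.comap (iA (G := G)) := by
  constructor
  · intro hx
    obtain ⟨k, k1, k2⟩ := Nat.chineseRemainder hc 1 0
    obtain ⟨l, l1, l2⟩ := Nat.chineseRemainder hc 0 1
    refine ⟨?_, ?_⟩
    · have := V.pow_mem hx k
      rw [Subgroup.mem_comap]
      convert this using 1
      obtain ⟨⟨g1, a1⟩, ⟨g2, a2⟩, ⟨g3, a3⟩⟩ := x
      simp [iG, pG, Prod.pow_def, pow_one_mod k1, pow_zero_mod k2]
    · have := V.pow_mem hx l
      rw [Subgroup.mem_comap]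
      convert this using 1
      obtain ⟨⟨g1, a1⟩, ⟨g2, a2⟩, ⟨g3, a3⟩⟩ := x
      simp [iA, pA, Prod.pow_def, pow_one_mod l2, pow_zero_mod l1]
  · rintro ⟨h1, h2⟩
    have := V.mul_mem h1 h2
    convert this using 1
    obtain ⟨⟨g1, a1⟩, ⟨g2, a2⟩, ⟨g3, a3⟩⟩ := x
    simp [iG, pG, iA, pA]

theorem Pres.prod {ψ : G ≃ H} (h : Pres ψ) (hc : (Nat.card G).Coprime (Nat.card A)) :
    Pres (ψ.prodCongr (Equiv.refl A)) := by
  intro V
  obtain ⟨W, hW⟩ := h (V.comap (iG (A := A)))
  refine ⟨W.comap (pG (A := A)) ⊓ (V.comap (iA (G := G))).comap (pA (G := H)), ?_⟩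
  ext y
  obtain ⟨x, rfl⟩ := (cube (ψ.prodCongr (Equiv.refl A))).surjective y
  change pG (cube (ψ.prodCongr (Equiv.refl A)) x) ∈ W ∧
    pA (cube (ψ.prodCongr (Equiv.refl A)) x) ∈ V.comap (iA (G := G)) ↔ _
  have e1 : pG (cube (ψ.prodCongr (Equiv.refl A)) x) = cube ψ (pG x) := rfl
  have e2 : pA (cube (ψ.prodCongr (Equiv.refl A)) x) = pA x := rfl
  rw [e1, e2, ← SetLike.mem_coe, hW]
  have e3 : cube ψ (pG x) ∈ cube ψ '' (V.comap (iG (A := A)) : Set (G × G × G)) ↔
      pG x ∈ V.comap (iG (A := A)) := by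
    constructor
    · rintro ⟨z, hz, hzx⟩
      rw [← (cube ψ).injective hzx]; exact hz
    · intro hz
      exact ⟨_, hz, rfl⟩
  rw [e3, ← split hc V x]
  constructor
  · intro hx
    exact ⟨x, hx, rfl⟩
  · rintro ⟨z, hz, hzx⟩
    rw [← (cube (ψ.prodCongr (Equiv.refl A))).injective hzx]; exact hz

theorem lift_inl (x y : G) (w : FreeGroup (Fin 2)) :
    FreeGroup.lift ![((x, 1) : G × A), (y, 1)] w = (FreeGroup.lift ![x, y] w, 1) := by
  have h : FreeGroup.lift ![((x, 1) : G × A), (y, 1)] =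
      (MonoidHom.inl G A).comp (FreeGroup.lift ![x, y]) := by
    ext i
    · fin_cases i <;> simp
    · fin_cases i <;> simp
  rw [h]; rfl

theorem lift_one_one {P : Type} [Group P] (w : FreeGroup (Fin 2)) :
    FreeGroup.lift ![(1 : P), 1] w = 1 := by
  have h : FreeGroup.lift ![(1 : P), 1] = 1 := by
    ext i
    fin_cases i <;> simp
  rw [h]; rfl

theorem reduce (hcard : Nat.card G = Nat.card H) (hc : (Nat.card G).Coprime (Nat.card A))
    (f : G × A ≃ H × A) (w : FreeGroup (Fin 2))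
    (hw : ∀ x y, f.symm (f x * f y) = FreeGroup.lift ![x, y] w) :
    ∃ f' : G ≃ H, ∀ x y, f'.symm (f' x * f' y) = FreeGroup.lift ![x, y] w := by
  have hw' : ∀ x y, f x * f y = f (FreeGroup.lift ![x, y] w) := fun x y => by
    rw [← hw, Equiv.apply_symm_apply]
  have f1 : f 1 = 1 := by
    have := hw' 1 1
    rw [lift_one_one] at this
    exact mul_eq_left.1 this
  have hmul : ∀ x y : G, f (x, 1) * f (y, 1) = f (FreeGroup.lift ![x, y] w, 1) := fun x y => by
    rw [hw', lift_inl]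
  let M : Submonoid (H × A) :=
    { carrier := {y | (f.symm y).2 = 1}
      one_mem' := by
        show (f.symm 1).2 = 1
        rw [show f.symm 1 = 1 by rw [Equiv.symm_apply_eq, f1]]; rfl
      mul_mem' := by
        intro a b ha hb
        have ha' : (f.symm a).2 = 1 := ha
        have hb' : (f.symm b).2 = 1 := hb
        have h1 := hmul (f.symm a).1 (f.symm b).1
        have ea : f ((f.symm a).1, 1) = a := by
          rw [← ha', Prod.mk.eta, Equiv.apply_symm_apply]
        have eb : f ((f.symm b).1, 1) = b := by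
          rw [← hb', Prod.mk.eta, Equiv.apply_symm_apply]
        rw [ea, eb] at h1
        show (f.symm (a * b)).2 = 1
        rw [h1, Equiv.symm_apply_apply] }
  let K : Subgroup (H × A) :=
    { M with
      inv_mem' := by
        intro a ha
        have : a⁻¹ = a ^ (Nat.card (H × A) - 1) := by
          rw [eq_comm, eq_inv_iff_mul_eq_one, ← pow_succ, Nat.sub_add_cancel Nat.card_pos,
            pow_card_eq_one']
        rw [this]
        exact M.pow_mem ha _ }
  have hK : ∀ y, y ∈ K ↔ (f.symm y).2 = 1 := fun y => Iff.rfl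
  have eK : Nat.card K = Nat.card G := by
    refine Nat.card_congr ⟨fun y => (f.symm y.1).1, fun g => ⟨f (g, 1), ?_⟩, fun y => ?_, fun g => ?_⟩
    · rw [hK, Equiv.symm_apply_apply]
    · apply Subtype.ext
      have := (hK y.1).1 y.2
      show f ((f.symm y.1).1, 1) = y.1
      rw [← this, Prod.mk.eta, Equiv.apply_symm_apply]
    · show (f.symm (f (g, 1))).1 = g
      rw [Equiv.symm_apply_apply]
  have h2 : ∀ g : G, (f (g, 1)).2 = 1 := by
    intro g
    have hg : f (g, 1) ∈ K := by rw [hK, Equiv.symm_apply_apply]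
    have h3 : (⟨f (g, 1), hg⟩ : K) ^ Nat.card K = 1 := pow_card_eq_one'
    have h4 : f (g, 1) ^ Nat.card G = 1 := by
      rw [← eK]
      exact congrArg Subtype.val h3
    have h5 : (f (g, 1)).2 ^ Nat.card G = 1 := congrArg Prod.snd h4
    have h6 : (f (g, 1)).2 ^ Nat.card A = 1 := pow_card_eq_one'
    have h7 := Nat.dvd_gcd (orderOf_dvd_of_pow_eq_one h5) (orderOf_dvd_of_pow_eq_one h6)
    rw [hc] at h7
    exact orderOf_eq_one_iff.1 (Nat.dvd_one.1 h7)
  have hinj : Function.Injective fun g : G => (f (g, 1)).1 := by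
    intro a b hab
    have : f (a, 1) = f (b, 1) := Prod.ext hab ((h2 a).trans (h2 b).symm)
    exact congrArg Prod.fst (f.injective this)
  have hbij : Function.Bijective fun g : G => (f (g, 1)).1 :=
    (Nat.bijective_iff_injective_and_card _).2 ⟨hinj, hcard⟩
  refine ⟨Equiv.ofBijective _ hbij, fun x y => ?_⟩
  rw [Equiv.symm_apply_eq]
  show (f (x, 1)).1 * (f (y, 1)).1 = (f (FreeGroup.lift ![x, y] w, 1)).1
  rw [← hmul]; rfl

end prod

section conc
variable {N R K : Type} [CommRing N] [CommRing R] [CommGroup K]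

theorem pres_psi [Finite N] [Finite R] [Finite K] (S : Setup N R K) : Pres (psi S) := by
  intro V
  refine ⟨toH S V, ?_⟩
  ext y
  rw [SetLike.mem_coe, mem_toH]
  constructor
  · intro h
    exact ⟨_, h, (psi3 S).apply_symm_apply y⟩
  · rintro ⟨x, hx, rfl⟩
    have : (psi3 S).symm (cube (psi S) x) = x := (psi3 S).symm_apply_apply x
    rw [this]; exact hx

theorem pres_psi_symm [Finite N] [Finite R] [Finite K] (S : Setup N R K) : Pres (psi S).symm := by
  intro V
  refine ⟨toG S V, ?_⟩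
  ext y
  rw [SetLike.mem_coe, mem_toG]
  constructor
  · intro h
    exact ⟨_, h, (psi3 S).symm_apply_apply y⟩
  · rintro ⟨x, hx, rfl⟩
    have : psi3 S (cube (psi S).symm x) = x := (psi3 S).apply_symm_apply x
    rw [this]; exact hx

theorem mk_pow {T : K →* N × R} (a : N × R) (n : ℕ) : (⟨a, 1⟩ : Aff T) ^ n = ⟨n • a, 1⟩ := by
  induction n with
  | zero => simp [pow_zero]; rfl
  | succ n ih =>
    rw [pow_succ, ih, mk_mul_mk, map_one, one_mul, succ_nsmul, one_mul]

theorem k_pow {T : K →* N × R} (u : Aff T) (n : ℕ) : (u ^ n).k = u.k ^ n := by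
  induction n with
  | zero => rw [pow_zero, pow_zero]; rfl
  | succ n ih => rw [pow_succ, pow_succ, mul_k, ih]

theorem pgroup (S : Setup N R K) (T : K →* N × R) : IsPGroup 7 (Aff T) := by
  intro u
  refine ⟨9 + 10, ?_⟩
  rw [pow_add 7 9 10, pow_mul]
  have h1 : u ^ 7 ^ 9 = ⟨(u ^ 7 ^ 9).a, 1⟩ := Aff.ext rfl (by rw [k_pow, K_exp S])
  rw [h1, mk_pow]
  refine Aff.ext ?_ rfl
  refine Prod.ext ?_ ?_
  · have h : ((7 ^ 10 : ℕ) : N) = 0 := by
      rw [Nat.cast_pow]; exact S.N1
    show (7 ^ 10) • (u ^ 7 ^ 9).a.1 = 0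
    rw [nsmul_eq_mul, h, zero_mul]
  · have h : ((7 ^ 10 : ℕ) : R) = 0 := by
      rw [Nat.cast_pow, Nat.cast_ofNat, ← S.sq]
      linear_combination S.p ^ 11 * S.nine
    show (7 ^ 10) • (u ^ 7 ^ 9).a.2 = 0
    rw [nsmul_eq_mul, h, zero_mul]

theorem metab {T : K →* N × R} (a b c d : Aff T) :
    Commute (a * b * (b * a)⁻¹) (c * d * (d * c)⁻¹) := by
  rw [comm_eq, comm_eq]
  refine Aff.ext ?_ ?_
  · simp only [mul_a, map_one]; ring
  · simp

end conc

end Pool.Agent.KS7_39.D51
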